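import Pool.Agent.H78.STN.Stmts

/-!
# Board STN, row CBD
-/

set_option autoImplicit false

open Polynomial

namespace Pool.STN

/-- coefficientwise domination -/
def CbdMaj (A B : ℤ[X]) : Prop := ∀ j, |A.coeff j| ≤ B.coeff j

theorem cbd_nonneg {A B : ℤ[X]} (h : CbdMaj A B) (j : ℕ) : 0 ≤ B.coeff j :=
  (abs_nonneg _).trans (h j)

theorem cbd_mul {A B A' B' : ℤ[X]} (h : CbdMaj A B) (h' : CbdMaj A' B') :
    CbdMaj (A * A') (B * B') := by
  intro j
  rw [coeff_mul, coeff_mul]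
  refine (Finset.abs_sum_le_sum_abs _ _).trans (Finset.sum_le_sum fun x _ => ?_)
  rw [abs_mul]
  exact mul_le_mul (h _) (h' _) (abs_nonneg _) (cbd_nonneg h _)

theorem cbd_one : CbdMaj 1 1 := by
  intro j
  rw [coeff_one]
  split <;> simp

theorem cbd_pow {A B : ℤ[X]} (h : CbdMaj A B) (n : ℕ) : CbdMaj (A ^ n) (B ^ n) := by
  induction n with
  | zero => simpa using cbd_one
  | succ n ih =>
    rw [pow_succ, pow_succ]
    exact cbd_mul ih h

theorem cbd_lin (a : ℤ) (ha : 0 ≤ a) : CbdMaj (X - C a) (X + C a) := by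
  intro j
  rw [coeff_sub, coeff_add, coeff_X, coeff_C]
  by_cases h0 : j = 0
  · subst h0
    simp [abs_of_nonneg ha]
  · by_cases h1 : 1 = j
    · subst h1
      simp
    · simp [h0, h1]

theorem cbd_eval {A B : ℤ[X]} (h : CbdMaj A B) (j : ℕ) : |A.coeff j| * 7 ^ j ≤ B.eval 7 := by
  have h1 : |A.coeff j| * 7 ^ j ≤ B.coeff j * 7 ^ j :=
    mul_le_mul_of_nonneg_right (h j) (by positivity)
  refine h1.trans ?_
  rw [eval_eq_sum_range]
  by_cases hj : j ≤ B.natDegree
  · exact Finset.single_le_sum (f := fun i => B.coeff i * 7 ^ i)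
      (fun i _ => mul_nonneg (cbd_nonneg h i) (by positivity))
      (Finset.mem_range.2 (Nat.lt_succ_of_le hj))
  · rw [coeff_eq_zero_of_natDegree_lt (by omega), zero_mul]
    exact Finset.sum_nonneg fun i _ => mul_nonneg (cbd_nonneg h i) (by positivity)

/-- Row CBD. -/
theorem CBD_thm : CBDStmt := by
  intro n j
  have h : CbdMaj Pz ((X + C 6) ^ 3 * (X + C 8) ^ 2 * (X + C 9)) :=
    cbd_mul (cbd_mul (cbd_pow (cbd_lin 6 (by norm_num)) 3) (cbd_pow (cbd_lin 8 (by norm_num)) 2))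
      (cbd_lin 9 (by norm_num))
  refine (cbd_eval (cbd_pow h n) j).trans (le_of_eq ?_)
  rw [eval_pow]
  congr 1
  simp only [eval_mul, eval_pow, eval_add, eval_X, eval_C]
  norm_num

end Pool.STN
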