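import Pool.Agent.H78.STN.Stmts3

/-!
# Board STO, row CHB: the number of descending steps
-/

set_option autoImplicit false

open Finset

namespace Pool.STN

theorem chb_F0 (y : ℕ) (h : y % 3 = 0) : 3 * F y = 2 * y := by
  unfold F
  rw [if_pos h]
  omega

theorem chb_F1 (y : ℕ) (hy : 2 ≤ y) (h : y % 3 ≠ 0) : y < F y := by
  unfold F
  rw [if_neg h]
  split <;> omega

/-- number of ends of descending blocks -/
def chbL (y n : ℕ) : ℕ := Nat.count (fun i => F^[i] y % 3 = 0 ∧ F^[i + 1] y % 3 ≠ 0) n

/-- number of descending steps -/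
def chbD (y n : ℕ) : ℕ := Nat.count (fun i => F^[i] y % 3 = 0) n

theorem chbL_succ (y n : ℕ) :
    chbL y (n + 1) = chbL (F y) n + if y % 3 = 0 ∧ F y % 3 ≠ 0 then 1 else 0 := by
  unfold chbL
  rw [Nat.count_succ']
  rfl

theorem chbD_succ (y n : ℕ) :
    chbD y (n + 1) = chbD (F y) n + if y % 3 = 0 then 1 else 0 := by
  unfold chbD
  rw [Nat.count_succ']
  rfl

theorem chb_log : Real.log 3 - Real.log 2 ≤ 3 / 5 * Real.log 2 := by
  have h : Real.log ((3 : ℝ) ^ 5) ≤ Real.log ((2 : ℝ) ^ 8) :=
    Real.log_le_log (by norm_num) (by norm_num)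
  rw [Real.log_pow, Real.log_pow] at h
  push_cast at h
  linarith

theorem chb_main (m0 : ℕ) (hm : 2 ≤ m0) (h3 : m0 % 3 ≠ 0) : ∀ n y : ℕ, (∀ j, 2 ≤ F^[j] y) →
    F^[n] y = m0 → ∃ e w L : ℕ, y * 2 ^ e = 3 ^ e * w ∧ w % 3 ≠ 0 ∧
      Real.log w ≤ (8 / 5) ^ L * Real.log m0 ∧
      (chbD y n : ℝ) * Real.log 2 ≤ e * Real.log 2 +
        (∑ i ∈ range L, ((8 : ℝ) / 5) ^ i) * Real.log m0 ∧
      L + (if e = 0 then 0 else 1) ≤ chbL y n := by
  have hlm : 0 ≤ Real.log m0 := Real.log_natCast_nonneg m0
  have hl2 : 0 < Real.log 2 := Real.log_pos (by norm_num)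
  intro n
  induction n with
  | zero =>
    intro y _ hn
    have hy : y = m0 := hn
    subst hy
    refine ⟨0, y, 0, by simp, h3, by simp, ?_, by simp⟩
    simp [chbD]
  | succ n ih =>
    intro y hy2 hn
    have hy : 2 ≤ y := hy2 0
    obtain ⟨e, w, L, he, hw, hlog, hD, hL⟩ := ih (F y) (fun j => hy2 (j + 1)) hn
    have hFy : 2 ≤ F y := hy2 1
    have hw0 : 1 ≤ w := by
      rcases Nat.eq_zero_or_pos w with h0 | h0
      · subst h0
        simp at hw
      · exact h0
    have hw0' : (0 : ℝ) < w := by exact_mod_cast hw0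
    by_cases hy3 : y % 3 = 0
    · have hF := chb_F0 y hy3
      refine ⟨e + 1, w, L, ?_, hw, hlog, ?_, ?_⟩
      · calc y * 2 ^ (e + 1) = (2 * y) * 2 ^ e := by ring
          _ = 3 * (F y * 2 ^ e) := by rw [← hF]; ring
          _ = 3 ^ (e + 1) * w := by rw [he]; ring
      · rw [chbD_succ, if_pos hy3]
        push_cast
        linarith
      · rw [chbL_succ, if_neg (by omega : ¬ e + 1 = 0)]
        by_cases he0 : e = 0
        · subst he0
          have hFw : F y = w := by simpa using he
          rw [if_pos rfl] at hL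
          rw [if_pos ⟨hy3, by rw [hFw]; exact hw⟩]
          omega
        · rw [if_neg he0] at hL
          omega
    · have hF := chb_F1 y hy hy3
      have hyl : Real.log y ≤ Real.log (F y : ℕ) :=
        Real.log_le_log (by exact_mod_cast (by omega : 0 < y)) (by exact_mod_cast hF.le)
      have hDe : chbD y (n + 1) = chbD (F y) n := by
        rw [chbD_succ, if_neg hy3]
        rfl
      have hLe : chbL y (n + 1) = chbL (F y) n := by
        rw [chbL_succ, if_neg (fun h => hy3 h.1)]
        rfl
      by_cases he0 : e = 0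
      · subst he0
        have hFw : F y = w := by simpa using he
        refine ⟨0, y, L, by simp, hy3, ?_, ?_, ?_⟩
        · rw [hFw] at hyl
          exact hyl.trans hlog
        · rw [hDe]
          exact hD
        · rw [hLe]
          exact hL
      · -- a descending block of length `e`
        have hdvd : 2 ^ e ∣ w := by
          have h1 : 2 ^ e ∣ 3 ^ e * w := ⟨F y, by rw [← he]; ring⟩
          exact (Nat.Coprime.pow e e (by norm_num : Nat.Coprime 2 3)).dvd_of_dvd_mul_left h1
        have hle : 2 ^ e ≤ w := Nat.le_of_dvd hw0 hdvd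
        have hle' : (e : ℝ) * Real.log 2 ≤ Real.log w := by
          rw [← Real.log_pow]
          exact Real.log_le_log (by positivity) (by exact_mod_cast hle)
        have hlogF : Real.log (F y : ℕ) = Real.log w + e * (Real.log 3 - Real.log 2) := by
          have hFy0 : (0 : ℝ) < (F y : ℕ) := by exact_mod_cast (by omega : 0 < F y)
          have h1 : ((F y : ℕ) : ℝ) * 2 ^ e = 3 ^ e * w := by exact_mod_cast he
          have h2 := congrArg Real.log h1
          rw [Real.log_mul hFy0.ne' (by positivity), Real.log_mul (by positivity) hw0'.ne',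
            Real.log_pow, Real.log_pow] at h2
          linarith
        have hFb : Real.log (F y : ℕ) ≤ 8 / 5 * Real.log w := by
          rw [hlogF]
          have h1 : (e : ℝ) * (Real.log 3 - Real.log 2) ≤ e * (3 / 5 * Real.log 2) :=
            mul_le_mul_of_nonneg_left chb_log (by positivity)
          nlinarith
        refine ⟨0, y, L + 1, by simp, hy3, ?_, ?_, ?_⟩
        · have h1 : 8 / 5 * Real.log w ≤ 8 / 5 * ((8 / 5) ^ L * Real.log m0) :=
            mul_le_mul_of_nonneg_left hlog (by norm_num)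
          calc Real.log y ≤ 8 / 5 * ((8 / 5) ^ L * Real.log m0) := hyl.trans (hFb.trans h1)
            _ = (8 / 5) ^ (L + 1) * Real.log m0 := by ring
        · rw [hDe, sum_range_succ, add_mul]
          push_cast
          linarith
        · rw [hLe]
          rw [if_neg he0] at hL
          simpa using hL

/-- Row CHB. -/
theorem CHB_thm : CHBStmt := by
  intro m0 k K hm hk hper hmin hlm
  have h3 : m0 % 3 ≠ 0 := by
    intro h
    have h1 := chb_F0 m0 h
    have h2 := hmin 1
    rw [Function.iterate_one] at h2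
    omega
  have hlog : 0 ≤ Real.log m0 := Real.log_natCast_nonneg m0
  obtain ⟨e, w, L, he, hw, _, hD, hL⟩ :=
    chb_main m0 hm h3 k m0 (fun j => hm.trans (hmin j)) hper
  have he0 : e = 0 := by
    by_contra hne
    obtain ⟨e', rfl⟩ := Nat.exists_eq_succ_of_ne_zero hne
    have h1 : 3 ∣ m0 * 2 ^ (e' + 1) := ⟨3 ^ e' * w, by
      rw [show m0 * 2 ^ (e' + 1) = 3 ^ (e' + 1) * w from he]
      ring⟩
    have h2 : 3 ∣ m0 :=
      (Nat.Coprime.pow_right (e' + 1) (by norm_num : Nat.Coprime 3 2)).dvd_of_dvd_mul_right h1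
    exact h3 (Nat.mod_eq_zero_of_dvd h2)
  subst he0
  have hLK : L ≤ K := by
    refine le_trans ?_ hlm
    have h1 : L ≤ chbL m0 k := by simpa using hL
    refine h1.trans ?_
    unfold chbL lm
    rw [Nat.count_eq_card_filter_range]
    apply card_le_card
    intro j hj
    rw [mem_filter] at hj ⊢
    obtain ⟨hj1, hj2, hj3⟩ := hj
    refine ⟨hj1, ?_, ?_⟩
    · have h4 := chb_F0 _ hj2
      have h5 : 2 ≤ F^[j] m0 := hm.trans (hmin j)
      rw [Function.iterate_succ_apply']
      omega
    · have h5 : 2 ≤ F^[j + 1] m0 := hm.trans (hmin (j + 1))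
      have h6 := chb_F1 _ h5 hj3
      rw [show j + 2 = (j + 1) + 1 from rfl, Function.iterate_succ_apply' F (j + 1)]
      exact h6
  have hdn : dnc m0 k = chbD m0 k := by
    unfold dnc chbD
    rw [Nat.count_eq_card_filter_range]
  rw [hdn]
  refine hD.trans ?_
  rw [Nat.cast_zero, zero_mul, zero_add]
  apply mul_le_mul_of_nonneg_right _ hlog
  exact sum_le_sum_of_subset_of_nonneg (range_mono hLK) (fun i _ _ => by positivity)

end Pool.STN
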