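import Pool.Agent.H78.STN.Stmts

/-!
# Board STN, row JBD
-/

set_option autoImplicit false

namespace Pool.STN

theorem jbd_pt (h1 : PBDStmt) (n i : ℕ) (hi : i ≤ 2) (x : ℝ) (h6 : 6 ≤ x) (h9 : x ≤ 9) :
    |gg n i x| ≤ 9 * (1 / 150) ^ n := by
  have hx : (0 : ℝ) < x := by linarith
  have hP := h1 x h6 h9
  have hP' : |(x - 6) ^ 3 * (x - 8) ^ 2 * (x - 9)| ≤ x ^ 3 * (1 / 150) := by linarith
  unfold gg
  rw [abs_mul, abs_pow, abs_of_pos (zpow_pos hx _)]
  have e1 : x ^ (-3 * (n : ℤ) - 1 + i) = (x ^ (3 * n))⁻¹ * x ^ ((i : ℤ) - 1) := by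
    rw [← zpow_natCast, ← zpow_neg, ← zpow_add₀ hx.ne']
    congr 1
    push_cast
    ring
  have e2 : x ^ ((i : ℤ) - 1) ≤ 9 := by
    have : x ^ ((i : ℤ) - 1) ≤ x ^ (1 : ℤ) := zpow_le_zpow_right₀ (by linarith) (by omega)
    rw [zpow_one] at this
    linarith
  have hpos : (0 : ℝ) < x ^ (3 * n) := by positivity
  calc |(x - 6) ^ 3 * (x - 8) ^ 2 * (x - 9)| ^ n * x ^ (-3 * (n : ℤ) - 1 + i)
      ≤ (x ^ 3 * (1 / 150)) ^ n * x ^ (-3 * (n : ℤ) - 1 + i) := by
        apply mul_le_mul_of_nonneg_right _ (zpow_pos hx _).le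
        exact pow_le_pow_left₀ (abs_nonneg _) hP' n
    _ = (1 / 150) ^ n * x ^ ((i : ℤ) - 1) := by
        rw [e1, mul_pow, ← pow_mul]
        field_simp
    _ ≤ (1 / 150) ^ n * 9 := mul_le_mul_of_nonneg_left e2 (by positivity)
    _ = 9 * (1 / 150) ^ n := by ring

/-- Row JBD. -/
theorem JBD_thm (h1 : PBDStmt) : JBDStmt := by
  intro n i hi
  constructor
  · have h := intervalIntegral.norm_integral_le_of_norm_le_const (a := (6 : ℝ)) (b := 8)
      (f := gg n i) (C := 9 * (1 / 150) ^ n) (fun x hx => by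
        rw [Set.uIoc_of_le (by norm_num)] at hx
        rw [Real.norm_eq_abs]
        exact jbd_pt h1 n i hi x hx.1.le (by linarith [hx.2]))
    rw [Real.norm_eq_abs] at h
    refine h.trans (le_of_eq ?_)
    norm_num
    ring
  · have h := intervalIntegral.norm_integral_le_of_norm_le_const (a := (8 : ℝ)) (b := 9)
      (f := gg n i) (C := 9 * (1 / 150) ^ n) (fun x hx => by
        rw [Set.uIoc_of_le (by norm_num)] at hx
        rw [Real.norm_eq_abs]
        exact jbd_pt h1 n i hi x (by linarith [hx.1]) hx.2)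
    rw [Real.norm_eq_abs] at h
    refine h.trans (le_of_eq ?_)
    norm_num

end Pool.STN
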